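import Pool.Agent.U14.UF.Jobs
import Pool.Agent.R396.TL.Tay
import Pool.Agent.R396.TL.Poi
import Pool.Agent.R396.TL.Sum

/-!
# Project UF, package THETA: an even unimodular lattice of rank 16 has 480 roots (helper750)
-/

set_option autoImplicit false

namespace Pool.Agent.U750.UF

open UpperHalfPlane hiding I
open Real EisensteinSeries ModularForm MatrixGroups
open scoped MatrixGroups ModularForm
open Pool.Agent.R396.TL Pool.Agent.R396.QM Pool.Agent.R322.QD Pool.Agent.R396.XQ.KO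

noncomputable section

lemma comb_zero (S : ℂ) (X : ℕ → PowerSeries ℂ) : DE.comb S X 0 = X 0 := by
  unfold DE.comb
  simp

lemma mom_card {n : ℕ} (G : Matrix (Fin n) (Fin n) ℤ) (v : Fin n → ℤ) (k : ℕ) :
    mom G v 0 k = (Nat.card {x : Fin n → ℤ // bf G x x = 2 * k} : ℝ) := by
  unfold mom
  have h1 : (fun x : Fin n → ℤ => if bf G x x = 2 * k then (bf G x v : ℝ) ^ 0 else 0) =
      Set.indicator {x : Fin n → ℤ | bf G x x = 2 * k} (fun _ => (1 : ℝ)) := by
    funext x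
    simp [Set.indicator_apply]
  rw [h1, ← tsum_subtype, tsum_const, nsmul_eq_mul, mul_one]
  rfl

lemma mom_zero_zero {n : ℕ} {G : Matrix (Fin n) (Fin n) ℤ}
    (hp : ∀ x : Fin n → ℝ, x ≠ 0 → 0 < bfR G x x) (v : Fin n → ℤ) : mom G v 0 0 = 1 := by
  rw [mom_card]
  have h1 : ∀ x : Fin n → ℤ, bf G x x = 2 * (0 : ℕ) ↔ x = 0 := by
    intro x
    constructor
    · intro h
      by_contra hx
      have h0 : (fun i => (x i : ℝ)) ≠ 0 := by
        intro h0
        apply hx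
        funext i
        have := congrFun h0 i
        simpa using this
      have h2 := hp _ h0
      have h3 : ((bf G x x : ℤ) : ℝ) = bfR G (fun i => (x i : ℝ)) (fun i => (x i : ℝ)) := by
        unfold bf bfR
        push_cast
        rfl
      rw [← h3, h] at h2
      simp at h2
    · rintro rfl
      unfold bf
      simp
  have h2 : Nat.card {x : Fin n → ℤ // bf G x x = 2 * (0 : ℕ)} = 1 := by
    rw [Nat.card_eq_one_iff_unique]
    refine ⟨⟨fun a b => Subtype.ext (((h1 _).1 a.2).trans ((h1 _).1 b.2).symm)⟩, ⟨⟨0, (h1 0).2 rfl⟩⟩⟩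
  rw [h2]
  norm_num

theorem t_THETA : Pool.Agent.U14.UF.S_THETA := by
  intro G hsym hpos hdet heven
  have hG : Uni (n := 8 * 2) G := ⟨hsym, hpos, hdet, heven⟩
  obtain ⟨v, hv⟩ : ∃ v : Fin (8 * 2) → ℤ, v = 0 := ⟨_, rfl⟩
  obtain ⟨f, hf⟩ := TA.form_Bt jobSum jobTheta (m := 2) hG v 0
  rw [comb_zero] at hf
  have hg : PS (fun τ => E₄ τ * E₄ τ) (e4 * e4) := ps_E4.mul ps_E4
  obtain ⟨g, hgd⟩ : ∃ g : ModularForm 𝒮ℒ ((4 * 2 + 2 * 0 : ℕ) : ℤ), PS g (e4 * e4) :=
    ⟨(E₄.mul E₄).mcast (by norm_num), hg⟩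
  have hdiff : PS (fun τ => f τ - g τ) (TA.Xs G v 0 - e4 * e4) := hf.sub hgd
  have hfg : qExpansion 1 ((f - g : ModularForm 𝒮ℒ ((4 * 2 + 2 * 0 : ℕ) : ℤ)) : ℍ → ℂ) =
      TA.Xs G v 0 - e4 * e4 := (ps_form (f - g)).unique hdiff
  have c0 : e4.coeff 0 = 1 := by rw [coeff_e4]; simp
  have c1 : e4.coeff 1 = 240 := by
    rw [coeff_e4]
    simp
  have x0 : (TA.Xs G v 0).coeff 0 = 1 := by
    unfold TA.Xs
    rw [PowerSeries.coeff_mk, mul_zero, mom_zero_zero hG.pos]
    norm_num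
  have h0 : f - g = 0 := by
    apply sturm_bound_levelOne_nat
    have h7 : ((1 : ℕ) : ℕ∞) ≤
        (qExpansion 1 ((f - g : ModularForm 𝒮ℒ ((4 * 2 + 2 * 0 : ℕ) : ℤ)) : ℍ → ℂ)).order := by
      apply PowerSeries.nat_le_order
      intro i hi
      have hi0 : i = 0 := by omega
      rw [hfg, hi0, map_sub, x0, PowerSeries.coeff_mul]
      simp [c0]
    refine lt_of_lt_of_le ?_ h7
    norm_num
  have h9 := (ModularForm.qExpansion_eq_zero_iff one_pos one_mem_strictPeriods_SL (f - g)).2 h0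
  rw [hfg] at h9
  have h10 := congrArg (PowerSeries.coeff 1) h9
  rw [map_sub, PowerSeries.coeff_mul] at h10
  have h11 : (Finset.HasAntidiagonal.antidiagonal 1 : Finset (ℕ × ℕ)) = {(0, 1), (1, 0)} := by
    decide
  rw [h11] at h10
  simp only [map_zero] at h10
  rw [Finset.sum_pair (by decide), c0, c1] at h10
  unfold TA.Xs at h10
  rw [PowerSeries.coeff_mk, mul_zero, mom_card] at h10
  have h12 : ((Nat.card {x : Fin (8 * 2) → ℤ // bf G x x = 2 * (1 : ℕ)} : ℕ) : ℂ) = (480 : ℕ) := by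
    push_cast at h10 ⊢
    linear_combination h10
  have h13 : Nat.card {x : Fin (8 * 2) → ℤ // bf G x x = 2 * (1 : ℕ)} = 480 := by
    exact_mod_cast h12
  exact h13

end

end Pool.Agent.U750.UF
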